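import Mathlib

/-!
# Shifted Douglas-Rachford iterates for two balls

For two closed balls in a real inner product space (of any dimension, in particular in `ℝ³`) the
shifted Douglas-Rachford iterates `T^n x + n v` converge for every starting point.

If the balls meet, `v = 0`, all iterates stay in a plane and the usual Fejér argument applies.
If they are disjoint, write `x_n = T^n x`, `e` for the unit vector pointing from the centre `a` of
`A` to the centre of `B`, and `x_n - a = t_n e + y_n` with `y_n ⊥ e`. For large `n` one has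
`t_{n+1} ≥ t_n + g`, with `g` the gap between the balls, and `y_{n+1} = κ_n y_n` with
`0 ≤ κ_n ≤ 1`. Since `t_n - n g` is bounded, both parts converge.
-/

set_option autoImplicit false

open Filter Topology Metric

namespace Pool.Agent.Results.MP_ef197a_an.TwoBalls

section defs

variable {E : Type*} [NormedAddCommGroup E]

/-- `P` is the nearest-point projection onto the set `C`. -/
def IsProjection (C : Set E) (P : E → E) : Prop :=
  ∀ x, P x ∈ C ∧ ∀ y ∈ C, ‖x - P x‖ ≤ ‖x - y‖

/-- `v` is the minimal displacement vector of `T`: the element of least norm in the closure of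
the range of `Id - T`. -/
def IsMinimalDisplacement (T : E → E) (v : E) : Prop :=
  v ∈ closure (Set.range fun x => x - T x) ∧
    ∀ w ∈ closure (Set.range fun x => x - T x), w ≠ v → ‖v‖ < ‖w‖

variable [InnerProductSpace ℝ E]

/-- The reflector `R = 2 P - Id` of a projection `P`. -/
def reflector (P : E → E) (x : E) : E := (2 : ℝ) • P x - x

/-- The Douglas-Rachford operator `T = (Id + R_B R_A) / 2`. -/
noncomputable def douglasRachford (PA PB : E → E) (x : E) : E :=
  (1 / 2 : ℝ) • (x + reflector PB (reflector PA x))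

end defs

variable {E : Type*} [NormedAddCommGroup E] [InnerProductSpace ℝ E]

/-! ### Projections -/

lemma var_ineq {C : Set E} (hC : Convex ℝ C) {P : E → E} (hP : IsProjection C P) (x : E) :
    ∀ y ∈ C, inner ℝ (x - P x) (y - P x) ≤ 0 := by
  have h := (norm_eq_iInf_iff_real_inner_le_zero hC (u := x) (hP x).1).1
  apply h
  apply le_antisymm
  · have : Nonempty C := ⟨⟨P x, (hP x).1⟩⟩
    exact le_ciInf fun w => (hP x).2 w w.2
  · exact ciInf_le ⟨0, by rintro _ ⟨w, rfl⟩; exact norm_nonneg _⟩ (⟨P x, (hP x).1⟩ : C)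

lemma eq_of_var {C : Set E} (hC : Convex ℝ C) {P : E → E} (hP : IsProjection C P) {x q : E}
    (hq : q ∈ C) (h : ∀ y ∈ C, inner ℝ (x - q) (y - q) ≤ 0) : P x = q := by
  have h1 := var_ineq hC hP x q hq
  have h2 := h (P x) (hP x).1
  have h3 : inner ℝ (q - P x) (q - P x) ≤ 0 := by
    have e : inner ℝ (q - P x) (q - P x) =
        inner ℝ (x - P x) (q - P x) + inner ℝ (x - q) (P x - q) := by
      simp only [inner_sub_left, inner_sub_right, real_inner_comm]
      ring
    rw [e]
    linarith
  have h4 : q - P x = 0 := by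
    rw [real_inner_self_eq_norm_sq] at h3
    have : ‖q - P x‖ = 0 := by nlinarith [norm_nonneg (q - P x)]
    exact norm_eq_zero.1 this
  exact (sub_eq_zero.1 h4).symm

lemma firm {C : Set E} (hC : Convex ℝ C) {P : E → E} (hP : IsProjection C P) (x y : E) :
    ‖P x - P y‖ ^ 2 ≤ inner ℝ (x - y) (P x - P y) := by
  have h1 := var_ineq hC hP x (P y) (hP y).1
  have h2 := var_ineq hC hP y (P x) (hP x).1
  rw [← real_inner_self_eq_norm_sq]
  have e : inner ℝ (x - y) (P x - P y) - inner ℝ (P x - P y) (P x - P y) =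
      - inner ℝ (x - P x) (P y - P x) - inner ℝ (y - P y) (P x - P y) := by
    simp only [inner_sub_left, inner_sub_right, real_inner_comm]
    ring
  linarith

lemma reflector_nonexp {C : Set E} (hC : Convex ℝ C) {P : E → E} (hP : IsProjection C P)
    (x y : E) : ‖reflector P x - reflector P y‖ ≤ ‖x - y‖ := by
  have h := firm hC hP x y
  apply le_of_sq_le_sq _ (norm_nonneg _)
  have e : ‖reflector P x - reflector P y‖ ^ 2 =
      4 * ‖P x - P y‖ ^ 2 - 4 * inner ℝ (x - y) (P x - P y) + ‖x - y‖ ^ 2 := by
    have : reflector P x - reflector P y = (2 : ℝ) • (P x - P y) - (x - y) := by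
      unfold reflector
      rw [smul_sub]; abel
    rw [this, norm_sub_sq_real, norm_smul, inner_smul_left, real_inner_comm]
    simp
    ring
  rw [e]
  linarith

section DR

variable {A B : Set E} {PA PB : E → E}

lemma dr_eq (x : E) : douglasRachford PA PB x = x + PB (reflector PA x) - PA x := by
  unfold douglasRachford
  conv_lhs => rw [reflector.eq_1 PB]
  have : x + ((2 : ℝ) • PB (reflector PA x) - reflector PA x) =
      (2 : ℝ) • (x + PB (reflector PA x) - PA x) := by
    rw [reflector.eq_1 PA x]
    simp only [two_smul]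
    abel
  rw [this, smul_smul]
  norm_num

lemma dr_firm (hA : Convex ℝ A) (hB : Convex ℝ B) (hPA : IsProjection A PA)
    (hPB : IsProjection B PB) (x y : E) :
    ‖douglasRachford PA PB x - douglasRachford PA PB y‖ ^ 2 +
      ‖(x - douglasRachford PA PB x) - (y - douglasRachford PA PB y)‖ ^ 2 ≤ ‖x - y‖ ^ 2 := by
  set N : E → E := fun x => reflector PB (reflector PA x) with hN
  have h1 : ‖N x - N y‖ ≤ ‖x - y‖ :=
    (reflector_nonexp hB hPB _ _).trans (reflector_nonexp hA hPA _ _)
  have h2 : ‖N x - N y‖ ^ 2 ≤ ‖x - y‖ ^ 2 := by gcongr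
  have e1 : douglasRachford PA PB x - douglasRachford PA PB y =
      (1 / 2 : ℝ) • ((x - y) + (N x - N y)) := by
    unfold douglasRachford
    rw [← smul_sub]
    congr 1
    simp only [hN]
    abel
  have e2 : (x - douglasRachford PA PB x) - (y - douglasRachford PA PB y) =
      (1 / 2 : ℝ) • ((x - y) - (N x - N y)) := by
    unfold douglasRachford
    have : ∀ z : E, z = (1 / 2 : ℝ) • z + (1 / 2 : ℝ) • z := fun z => by
      rw [← add_smul]; norm_num
    have hx := this x
    have hy := this y
    simp only [smul_sub, smul_add, hN]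
    conv_lhs => rw [show x - ((1 / 2 : ℝ) • x + (1 / 2 : ℝ) • reflector PB (reflector PA x)) =
      ((1 / 2 : ℝ) • x + (1 / 2 : ℝ) • x) -
        ((1 / 2 : ℝ) • x + (1 / 2 : ℝ) • reflector PB (reflector PA x)) by rw [← hx]]
    conv_lhs => rw [show y - ((1 / 2 : ℝ) • y + (1 / 2 : ℝ) • reflector PB (reflector PA y)) =
      ((1 / 2 : ℝ) • y + (1 / 2 : ℝ) • y) -
        ((1 / 2 : ℝ) • y + (1 / 2 : ℝ) • reflector PB (reflector PA y)) by rw [← hy]]
    abel
  rw [e1, e2, norm_smul, norm_smul, mul_pow, mul_pow, norm_add_sq_real (x - y) (N x - N y),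
    norm_sub_sq_real (x - y) (N x - N y)]
  norm_num
  linarith

lemma dr_nonexp (hA : Convex ℝ A) (hB : Convex ℝ B) (hPA : IsProjection A PA)
    (hPB : IsProjection B PB) (x y : E) :
    ‖douglasRachford PA PB x - douglasRachford PA PB y‖ ≤ ‖x - y‖ := by
  have h := dr_firm hA hB hPA hPB x y
  apply le_of_sq_le_sq _ (norm_nonneg _)
  nlinarith [sq_nonneg ‖(x - douglasRachford PA PB x) - (y - douglasRachford PA PB y)‖]

end DR

/-! ### Projections onto balls -/

lemma proj_inside {a : E} {r : ℝ} {P : E → E} (hP : IsProjection (closedBall a r) P) {x : E}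
    (hx : x ∈ closedBall a r) : P x = x :=
  eq_of_var (convex_closedBall a r) hP hx fun y _ => by simp

lemma proj_outside {a : E} {r : ℝ} (hr : 0 ≤ r) {P : E → E}
    (hP : IsProjection (closedBall a r) P) {x : E} (hx : r < ‖x - a‖) :
    P x = a + (r / ‖x - a‖) • (x - a) := by
  set ρ := ‖x - a‖ with hρ
  have hρ0 : 0 < ρ := lt_of_le_of_lt hr hx
  apply eq_of_var (convex_closedBall a r) hP
  · rw [mem_closedBall, dist_eq_norm, add_sub_cancel_left, norm_smul, Real.norm_of_nonneg
      (by positivity), ← hρ, div_mul_cancel₀ _ hρ0.ne']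
  · intro y hy
    rw [mem_closedBall, dist_eq_norm] at hy
    have e1 : x - (a + (r / ρ) • (x - a)) = (1 - r / ρ) • (x - a) := by
      rw [sub_smul, one_smul]; abel
    have e2 : y - (a + (r / ρ) • (x - a)) = (y - a) - (r / ρ) • (x - a) := by abel
    rw [e1, e2, inner_smul_left, inner_sub_right, inner_smul_right, real_inner_self_eq_norm_sq,
      ← hρ]
    have h1 : 0 ≤ 1 - r / ρ := by
      rw [sub_nonneg, div_le_one hρ0]; exact hx.le
    have h2 : inner ℝ (x - a) (y - a) ≤ ρ * r :=
      (real_inner_le_norm _ _).trans (by rw [← hρ]; gcongr)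
    have h3 : r / ρ * ρ ^ 2 = ρ * r := by field_simp
    simp only [conj_trivial]
    rw [h3]
    exact mul_nonpos_of_nonneg_of_nonpos h1 (by linarith)

/-- the projection of `x` onto a ball with centre `a` lies on the ray from `a` to `x` -/
lemma proj_ray {a : E} {r : ℝ} (hr : 0 ≤ r) {P : E → E}
    (hP : IsProjection (closedBall a r) P) (x : E) : ∃ c : ℝ, P x - a = c • (x - a) := by
  rcases le_or_gt ‖x - a‖ r with h | h
  · refine ⟨1, ?_⟩
    rw [proj_inside hP (by rw [mem_closedBall, dist_eq_norm]; exact h), one_smul]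
  · refine ⟨r / ‖x - a‖, ?_⟩
    rw [proj_outside hr hP h]; abel

/-! ### Intersecting balls -/

section meet

variable {a b : E} {r s : ℝ} {PA PB : E → E}

lemma conv_of_meet (hr : 0 ≤ r) (hs : 0 ≤ s) (hPA : IsProjection (closedBall a r) PA)
    (hPB : IsProjection (closedBall b s) PB) {z : E} (hzA : z ∈ closedBall a r)
    (hzB : z ∈ closedBall b s) (x : E) :
    ∃ l, Tendsto (fun n : ℕ => (douglasRachford PA PB)^[n] x) atTop (𝓝 l) := by
  set T := douglasRachford PA PB with hT
  have hTz : T z = z := by
    rw [hT, dr_eq]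
    have h1 : reflector PA z = z := by
      unfold reflector; rw [proj_inside hPA hzA, two_smul]; abel
    rw [h1, proj_inside hPA hzA, proj_inside hPB hzB]; abel
  have hfirm := dr_firm (convex_closedBall a r) (convex_closedBall b s) hPA hPB
  have hne := dr_nonexp (convex_closedBall a r) (convex_closedBall b s) hPA hPB
  have hcont : Continuous T := by
    have : LipschitzWith 1 T := LipschitzWith.of_dist_le_mul fun x y => by
      rw [dist_eq_norm, dist_eq_norm]; simpa using hne x y
    exact this.continuous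
  set u : ℕ → E := fun n => T^[n] x with hu
  have hsucc : ∀ n, u (n + 1) = T (u n) := fun n => Function.iterate_succ_apply' _ _ _
  -- all iterates lie in a finite-dimensional affine subspace
  set W : Submodule ℝ E := Submodule.span ℝ {b - a, x - a} with hW
  have hba : b - a ∈ W := Submodule.subset_span (by simp)
  have hWu : ∀ n, u n - a ∈ W := by
    intro n
    induction n with
    | zero => exact Submodule.subset_span (by simp [hu])
    | succ n ih =>
      rw [hsucc, hT, dr_eq]
      obtain ⟨c, hc⟩ := proj_ray hr hPA (u n)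
      obtain ⟨c', hc'⟩ := proj_ray hs hPB (reflector PA (u n))
      have h1 : PA (u n) - a ∈ W := by rw [hc]; exact W.smul_mem _ ih
      have h2 : reflector PA (u n) - b ∈ W := by
        have : reflector PA (u n) - b = (2 : ℝ) • (PA (u n) - a) - (u n - a) - (b - a) := by
          unfold reflector; rw [smul_sub, two_smul ℝ a]; abel
        rw [this]
        exact W.sub_mem (W.sub_mem (W.smul_mem _ h1) ih) hba
      have h3 : PB (reflector PA (u n)) - b ∈ W := by rw [hc']; exact W.smul_mem _ h2
      have : u n + PB (reflector PA (u n)) - PA (u n) - a =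
          (u n - a) + (PB (reflector PA (u n)) - b) + (b - a) - (PA (u n) - a) := by abel
      rw [this]
      exact W.sub_mem (W.add_mem (W.add_mem ih h3) hba) h1
  have : FiniteDimensional ℝ W := FiniteDimensional.span_of_finite ℝ (by simp)
  -- Fejér monotonicity
  have hmono : ∀ q, T q = q → Antitone fun n => ‖u n - q‖ := by
    intro q hq
    refine antitone_nat_of_succ_le fun n => ?_
    rw [hsucc]
    calc ‖T (u n) - q‖ = ‖T (u n) - T q‖ := by rw [hq]
      _ ≤ ‖u n - q‖ := hne _ _
  have hbdd := hmono z hTz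
  have hdiff : Tendsto (fun n => ‖u n - T (u n)‖ ^ 2) atTop (𝓝 0) := by
    have hlim : Tendsto (fun n => ‖u n - z‖ ^ 2) atTop (𝓝 (⨅ n, ‖u n - z‖ ^ 2)) := by
      apply tendsto_atTop_ciInf
      · intro m n hmn
        have := hbdd hmn
        simp only at this ⊢
        gcongr
      · exact ⟨0, by rintro _ ⟨n, rfl⟩; positivity⟩
    have hlim2 := (hlim.sub ((tendsto_add_atTop_iff_nat 1).2 hlim))
    rw [sub_self] at hlim2
    refine squeeze_zero (fun n => by positivity) (fun n => ?_) hlim2
    have h := hfirm (u n) z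
    have hTz' : douglasRachford PA PB z = z := hTz
    rw [hTz', sub_self, sub_zero] at h
    rw [hsucc]
    linarith
  have hdiff' : Tendsto (fun n => ‖u n - T (u n)‖) atTop (𝓝 0) := by
    have h := (Real.continuous_sqrt.tendsto 0).comp hdiff
    rw [Real.sqrt_zero] at h
    refine h.congr fun n => ?_
    exact Real.sqrt_sq (norm_nonneg _)
  -- a convergent subsequence
  let w : ℕ → W := fun n => ⟨u n - a, hWu n⟩
  have hwb : ∀ n, w n ∈ closedBall (0 : W) (‖x - z‖ + ‖z - a‖) := by
    intro n
    rw [mem_closedBall_zero_iff]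
    change ‖u n - a‖ ≤ _
    calc ‖u n - a‖ = ‖(u n - z) + (z - a)‖ := by congr 1; abel
      _ ≤ ‖u n - z‖ + ‖z - a‖ := norm_add_le _ _
      _ ≤ ‖x - z‖ + ‖z - a‖ := by
        have := hbdd (Nat.zero_le n)
        simp only [hu, Function.iterate_zero, id_eq] at this
        gcongr
  obtain ⟨w0, -, φ, hφ, hw0⟩ := (isCompact_closedBall (0 : W) _).tendsto_subseq hwb
  set q : E := (w0 : E) + a with hq
  have hsub : Tendsto (fun n => u (φ n)) atTop (𝓝 q) := by
    have h1 : Tendsto (fun n => ((w (φ n) : W) : E)) atTop (𝓝 (w0 : E)) :=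
      (continuous_subtype_val.tendsto w0).comp hw0
    exact (h1.add_const a).congr fun n => sub_add_cancel _ _
  have hTq : T q = q := by
    have h1 : Tendsto (fun n => u (φ n) - T (u (φ n))) atTop (𝓝 (q - T q)) :=
      hsub.sub ((hcont.tendsto q).comp hsub)
    have h2 : Tendsto (fun n => u (φ n) - T (u (φ n))) atTop (𝓝 0) :=
      tendsto_zero_iff_norm_tendsto_zero.2 (hdiff'.comp hφ.tendsto_atTop)
    have := tendsto_nhds_unique h1 h2
    rw [sub_eq_zero] at this
    exact this.symm
  refine ⟨q, ?_⟩
  rw [tendsto_iff_norm_sub_tendsto_zero]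
  have hm := hmono q hTq
  have hlim : Tendsto (fun n => ‖u n - q‖) atTop (𝓝 (⨅ n, ‖u n - q‖)) :=
    tendsto_atTop_ciInf hm ⟨0, by rintro _ ⟨n, rfl⟩; positivity⟩
  have hz : Tendsto (fun n => ‖u (φ n) - q‖) atTop (𝓝 0) := tendsto_iff_norm_sub_tendsto_zero.1 hsub
  have := tendsto_nhds_unique (hlim.comp hφ.tendsto_atTop) hz
  rw [this] at hlim
  exact hlim

end meet

/-! ### Disjoint balls -/

section disj

variable {a b e : E} {r s d : ℝ} {PA PB : E → E}

/-- one step of the iteration far away in the direction `e` -/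
lemma step (hr : 0 ≤ r) (hs : 0 ≤ s) (hPA : IsProjection (closedBall a r) PA)
    (hPB : IsProjection (closedBall b s) PB) (he : ‖e‖ = 1) (hb : b = a + d • e)
    (hd : r + s < d) {z : E} {t : ℝ} {y : E} (hz : z = a + t • e + y) (hy : inner ℝ e y = 0)
    (ht : 2 * (r + s) + 1 ≤ t) : ∃ t' κ : ℝ, t + (d - r - s) ≤ t' ∧ 0 ≤ κ ∧ κ ≤ 1 ∧
      (y = 0 → t' = t + (d - r - s)) ∧ douglasRachford PA PB z = a + t' • e + κ • y := by
  have hnorm : ∀ α β : ℝ, ‖α • e + β • y‖ ^ 2 = α ^ 2 + β ^ 2 * ‖y‖ ^ 2 := by
    intro α β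
    rw [norm_add_sq_real, norm_smul, norm_smul, inner_smul_left, inner_smul_right, hy, he]
    simp [mul_pow]
  have hza : z - a = t • e + y := by rw [hz]; abel
  set ρ := ‖z - a‖ with hρ
  have hρ2 : ρ ^ 2 = t ^ 2 + ‖y‖ ^ 2 := by
    have := hnorm t 1
    rw [one_smul, ← hza, ← hρ] at this
    rw [this]; ring
  have hρ0 : 0 ≤ ρ := norm_nonneg _
  have htρ : t ≤ ρ := by
    apply le_of_sq_le_sq _ hρ0
    rw [hρ2]; nlinarith [sq_nonneg ‖y‖]
  have hρpos : 0 < ρ := by linarith
  have hrρ : r < ρ := by linarith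
  have hpa : PA z = a + (r / ρ) • (t • e + y) := by
    rw [proj_outside hr hPA hrρ, ← hρ, hza]
  set R := reflector PA z with hR
  set τ : ℝ := t + d - 2 * (r / ρ) * t with hτ
  set μ : ℝ := 1 - 2 * (r / ρ) with hμ
  have hRb : R - b = (-τ) • e + (-μ) • y := by
    rw [hR, reflector.eq_1, hpa, hz, hb, hτ, hμ]
    module
  set σ := ‖R - b‖ with hσ
  have hσ2 : σ ^ 2 = τ ^ 2 + μ ^ 2 * ‖y‖ ^ 2 := by
    rw [hσ, hRb, hnorm]; ring
  have hσ0 : 0 ≤ σ := norm_nonneg _
  have hrρ1 : r / ρ * t ≤ r := by
    rw [div_mul_eq_mul_div, div_le_iff₀ hρpos]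
    gcongr
  have hrρ2 : 0 ≤ r / ρ := by positivity
  have hrρ3 : r / ρ ≤ 1 / 2 := by
    rw [div_le_div_iff₀ hρpos (by norm_num)]; linarith
  have hτ1 : 2 * s + 1 ≤ τ := by
    rw [hτ]; nlinarith
  have hτσ : τ ≤ σ := by
    apply le_of_sq_le_sq _ hσ0
    rw [hσ2]; nlinarith [mul_nonneg (sq_nonneg μ) (sq_nonneg ‖y‖)]
  have hσpos : 0 < σ := by linarith
  have hsσ : s < σ := by linarith
  have hpb : PB R = b + (s / σ) • ((-τ) • e + (-μ) • y) := by
    rw [proj_outside hs hPB hsσ, ← hσ, hRb]
  have hsσ2 : 0 ≤ s / σ := by positivity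
  have hsσ3 : s / σ ≤ 1 / 2 := by
    rw [div_le_div_iff₀ hσpos (by norm_num)]; linarith
  have hsσ1 : s / σ * τ ≤ s := by
    rw [div_mul_eq_mul_div, div_le_iff₀ hσpos]
    gcongr
  have hμ0 : 0 ≤ μ := by rw [hμ]; linarith
  have hμ1 : μ ≤ 1 := by rw [hμ]; linarith
  have hprod : s / σ * μ ≤ 1 / 2 := by nlinarith
  have hprod0 : 0 ≤ s / σ * μ := by positivity
  refine ⟨t + d - s / σ * τ - r / ρ * t, 1 - r / ρ - s / σ * μ, by linarith, by linarith,
    by linarith, ?_, ?_⟩
  · intro hy0
    have h1 : ρ = t := by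
      have h : ρ ^ 2 = t ^ 2 := by rw [hρ2, hy0]; simp
      exact (sq_eq_sq₀ hρ0 (by linarith)).1 h
    have h2 : σ = τ := by
      have h : σ ^ 2 = τ ^ 2 := by rw [hσ2, hy0]; simp
      exact (sq_eq_sq₀ hσ0 (by linarith)).1 h
    have h3 : r / ρ * t = r := by rw [h1]; exact div_mul_cancel₀ _ (by linarith)
    have h4 : s / σ * τ = s := by rw [h2]; exact div_mul_cancel₀ _ (by linarith)
    rw [h3, h4]; ring
  · rw [dr_eq, ← hR, hpb, hpa, hz, hb]
    module

lemma conv_of_disj (hr : 0 ≤ r) (hs : 0 ≤ s) (hPA : IsProjection (closedBall a r) PA)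
    (hPB : IsProjection (closedBall b s) PB) (he : ‖e‖ = 1) (hb : b = a + d • e)
    (hd : r + s < d) (x : E) :
    ∃ l, Tendsto (fun n : ℕ => (douglasRachford PA PB)^[n] x - (n : ℝ) • ((d - r - s) • e))
      atTop (𝓝 l) := by
  set g := d - r - s with hg
  have hg0 : 0 < g := by rw [hg]; linarith
  set T := douglasRachford PA PB with hT
  have hne := dr_nonexp (convex_closedBall a r) (convex_closedBall b s) hPA hPB
  set u : ℕ → E := fun n => T^[n] x with hu
  have hsucc : ∀ n, u (n + 1) = T (u n) := fun n => Function.iterate_succ_apply' _ _ _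
  set t0 : ℝ := 2 * (r + s) + 1 with ht0
  -- a comparison orbit on the axis
  have haxis : ∀ n : ℕ, T^[n] (a + t0 • e) = a + (t0 + n * g) • e := by
    intro n
    induction n with
    | zero => simp
    | succ n ih =>
      have hn : (0 : ℝ) ≤ n * g := by positivity
      obtain ⟨t', κ, -, -, -, h3, h4⟩ := step hr hs hPA hPB he hb hd
        (z := a + (t0 + n * g) • e) (t := t0 + n * g)
        (y := 0) (by simp) (by simp) (by linarith)
      rw [Function.iterate_succ_apply', ih, hT, h4, h3 rfl]
      simp only [smul_zero, add_zero]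
      push_cast
      congr 2
      rw [hg]; ring
  set K := ‖x - (a + t0 • e)‖ with hK
  have hcomp : ∀ n, ‖u n - (a + (t0 + n * g) • e)‖ ≤ K := by
    intro n
    rw [← haxis]
    induction n with
    | zero => simp [hu, hK]
    | succ n ih =>
      rw [hsucc, Function.iterate_succ_apply']
      exact (hne _ _).trans ih
  -- coordinates
  set t : ℕ → ℝ := fun n => inner ℝ e (u n - a) with htdef
  set y : ℕ → E := fun n => u n - a - t n • e with hydef
  have hee : inner ℝ e e = (1 : ℝ) := by rw [real_inner_self_eq_norm_sq, he]; norm_num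
  have hye : ∀ n, inner ℝ e (y n) = 0 := by
    intro n
    simp only [hydef, htdef]
    rw [inner_sub_right, inner_smul_right, hee, mul_one, sub_self]
  have hrep : ∀ n, u n = a + t n • e + y n := by
    intro n; simp only [hydef]; abel
  have htc : ∀ n : ℕ, |t n - (t0 + n * g)| ≤ K := by
    intro n
    have h1 : t n - (t0 + n * g) = inner ℝ e (u n - (a + (t0 + n * g) • e)) := by
      rw [show u n - (a + (t0 + n * g) • e) = (u n - a) - (t0 + n * g) • e by abel,
        inner_sub_right, inner_smul_right, hee, mul_one]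
    rw [h1]
    calc |inner ℝ e (u n - (a + (t0 + n * g) • e))| ≤ ‖e‖ * ‖u n - (a + (t0 + n * g) • e)‖ :=
          abs_real_inner_le_norm _ _
      _ ≤ K := by rw [he, one_mul]; exact hcomp n
  -- far away
  obtain ⟨N, hN⟩ := exists_nat_gt (K / g)
  have hfar : ∀ n, N ≤ n → t0 ≤ t n := by
    intro n hn
    have h1 := (abs_le.1 (htc n)).1
    have h2 : K < n * g := by
      have : (N : ℝ) ≤ n := by exact_mod_cast hn
      rw [div_lt_iff₀ hg0] at hN
      nlinarith
    linarith
  have hstep : ∀ n, N ≤ n → ∃ κ : ℝ, t n + g ≤ t (n + 1) ∧ 0 ≤ κ ∧ κ ≤ 1 ∧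
      y (n + 1) = κ • y n := by
    intro n hn
    obtain ⟨t', κ, h1, h2, h3, -, h4⟩ := step hr hs hPA hPB he hb hd (hrep n) (hye n) (hfar n hn)
    have h5 : u (n + 1) = a + t' • e + κ • y n := by rw [hsucc]; exact h4
    have h6 : t (n + 1) = t' := by
      have : u (n + 1) - a = t' • e + κ • y n := by rw [h5]; abel
      change inner ℝ e (u (n + 1) - a) = t'
      rw [this, inner_add_right, inner_smul_right, inner_smul_right, hee, hye]; ring
    refine ⟨κ, by rw [h6]; exact h1, h2, h3, ?_⟩
    have : y (n + 1) = u (n + 1) - a - t (n + 1) • e := rfl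
    rw [this, h5, h6]; abel
  choose! κ hκ1 hκ2 hκ3 hκ4 using hstep
  -- the axial part
  have htconv : ∃ L, Tendsto (fun n : ℕ => t n - n * g) atTop (𝓝 L) := by
    have hmono : Monotone fun n : ℕ => t (n + N) - ((n + N : ℕ) : ℝ) * g := by
      refine monotone_nat_of_le_succ fun n => ?_
      have := hκ1 (n + N) (Nat.le_add_left _ _)
      have e1 : n + 1 + N = n + N + 1 := by ring
      rw [e1]
      push_cast at this ⊢
      linarith
    have hbd : BddAbove (Set.range fun n : ℕ => t (n + N) - ((n + N : ℕ) : ℝ) * g) := by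
      refine ⟨K + t0, ?_⟩
      rintro _ ⟨n, rfl⟩
      have := (abs_le.1 (htc (n + N))).2
      simp only
      linarith
    exact ⟨_, (tendsto_add_atTop_iff_nat N).1 (tendsto_atTop_ciSup hmono hbd)⟩
  -- the transversal part
  have hyconv : ∃ L, Tendsto y atTop (𝓝 L) := by
    set p : ℕ → ℝ := fun n => ∏ i ∈ Finset.range n, κ (i + N) with hp
    have hp0 : ∀ n, 0 ≤ p n := fun n =>
      Finset.prod_nonneg fun i _ => hκ2 _ (Nat.le_add_left _ _)
    have hanti : Antitone p := by
      refine antitone_nat_of_succ_le fun n => ?_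
      simp only [hp, Finset.prod_range_succ]
      exact mul_le_of_le_one_right (hp0 n) (hκ3 _ (Nat.le_add_left _ _))
    have hlim := tendsto_atTop_ciInf hanti ⟨0, by rintro _ ⟨n, rfl⟩; exact hp0 n⟩
    have hyp : ∀ n, y (n + N) = p n • y N := by
      intro n
      induction n with
      | zero => simp [hp]
      | succ n ih =>
        have e1 : n + 1 + N = n + N + 1 := by ring
        rw [e1, hκ4 (n + N) (Nat.le_add_left _ _), ih, smul_smul]
        simp only [hp, Finset.prod_range_succ]
        rw [mul_comm]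
    refine ⟨(⨅ n, p n) • y N, (tendsto_add_atTop_iff_nat N).1 ?_⟩
    exact (hlim.smul_const (y N)).congr fun n => (hyp n).symm
  obtain ⟨L1, h1⟩ := htconv
  obtain ⟨L2, h2⟩ := hyconv
  refine ⟨a + L1 • e + L2, ?_⟩
  refine (((h1.smul_const e).const_add a).add h2).congr fun n => ?_
  change a + (t n - n * g) • e + y n = u n - (n : ℝ) • (g • e)
  conv_rhs => rw [hrep n]
  rw [sub_smul, smul_smul]
  abel

end disj

lemma minDisp_unique {T : E → E} {v w : E} (hv : IsMinimalDisplacement T v)
    (hw : w ∈ closure (Set.range fun x => x - T x)) (h : ‖w‖ ≤ ‖v‖) : v = w := by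
  by_contra hne
  exact absurd (hv.2 w hw (Ne.symm hne)) (not_lt.2 h)

/-- **Main theorem.** Let `A`, `B` be closed balls in a real inner product space, with projections
`P_A`, `P_B`, and let `T` be their Douglas-Rachford operator. The minimal displacement vector `v`
of `T` exists, and for every `x` the sequence `T^n x + n v` converges. -/
theorem result.{u} : ∀ (E : Type u) [NormedAddCommGroup E] [InnerProductSpace ℝ E] (a b : E)
    (r s : ℝ), 0 ≤ r → 0 ≤ s → ∀ PA PB : E → E,
      IsProjection (closedBall a r) PA → IsProjection (closedBall b s) PB →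
      (∃ v, IsMinimalDisplacement (douglasRachford PA PB) v) ∧
      ∀ v, IsMinimalDisplacement (douglasRachford PA PB) v → ∀ x : E,
        ∃ l, Tendsto (fun n : ℕ => (douglasRachford PA PB)^[n] x + (n : ℝ) • v) atTop (𝓝 l) := by
  intro E _ _ a b r s hr hs PA PB hPA hPB
  set T := douglasRachford PA PB with hT
  set d := ‖b - a‖ with hd
  rcases le_or_gt d (r + s) with hmeet | hdisj
  · -- the balls meet
    obtain ⟨z, hzA, hzB⟩ : ∃ z, z ∈ closedBall a r ∧ z ∈ closedBall b s := by
      rcases eq_or_ne d 0 with h0 | h0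
      · refine ⟨a, by simpa using hr, ?_⟩
        rw [mem_closedBall, dist_eq_norm, norm_sub_rev, ← hd, h0]
        exact hs
      · have hd0 : 0 < d := lt_of_le_of_ne (norm_nonneg _) (Ne.symm h0)
        refine ⟨a + (min r d / d) • (b - a), ?_, ?_⟩
        · rw [mem_closedBall, dist_eq_norm, add_sub_cancel_left, norm_smul, ← hd,
            Real.norm_of_nonneg (div_nonneg (le_min hr hd0.le) hd0.le), div_mul_cancel₀ _ h0]
          exact min_le_left _ _
        · rw [mem_closedBall, dist_eq_norm]
          have : a + (min r d / d) • (b - a) - b = -((1 - min r d / d) • (b - a)) := by module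
          rw [this, norm_neg, norm_smul, ← hd, Real.norm_of_nonneg, sub_mul, one_mul,
            div_mul_cancel₀ _ h0]
          · rcases min_cases r d with h | h <;> rw [h.1] <;> linarith
          · rw [sub_nonneg, div_le_one hd0]; exact min_le_right _ _
    have hTz : T z = z := by
      rw [hT, dr_eq]
      have h1 : reflector PA z = z := by
        unfold reflector; rw [proj_inside hPA hzA, two_smul]; abel
      rw [h1, proj_inside hPA hzA, proj_inside hPB hzB]; abel
    have h0 : (0 : E) ∈ closure (Set.range fun x => x - T x) :=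
      subset_closure ⟨z, by simp [hTz]⟩
    refine ⟨⟨0, h0, fun w _ hw => by rw [norm_zero]; exact norm_pos_iff.2 hw⟩, ?_⟩
    intro v hv x
    have hv0 : v = 0 := minDisp_unique hv h0 (by simp)
    obtain ⟨l, hl⟩ := conv_of_meet hr hs hPA hPB hzA hzB x
    exact ⟨l, by simpa [hv0] using hl⟩
  · -- the balls are disjoint
    have hd0 : 0 < d := by linarith
    set e : E := (1 / d) • (b - a) with he
    have he1 : ‖e‖ = 1 := by
      rw [he, norm_smul, ← hd, Real.norm_of_nonneg (by positivity)]
      field_simp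
    have hb : b = a + d • e := by
      rw [he, smul_smul, mul_one_div_cancel hd0.ne', one_smul]; abel
    have hee : inner ℝ e e = (1 : ℝ) := by rw [real_inner_self_eq_norm_sq, he1]; norm_num
    set g := d - r - s with hg
    have hg0 : 0 < g := by rw [hg]; linarith
    -- the inner product of elements of the range with `-e` is at least `g`
    have hrange : ∀ w ∈ closure (Set.range fun x => x - T x), inner ℝ e w ≤ -g := by
      have hcl : IsClosed {w : E | inner ℝ e w ≤ -g} :=
        isClosed_le (continuous_const.inner continuous_id) continuous_const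
      refine fun w hw => closure_minimal ?_ hcl hw
      rintro _ ⟨x, rfl⟩
      have h1 : x - T x = PA x - PB (reflector PA x) := by rw [hT, dr_eq]; abel
      have h2 := (hPA x).1
      have h3 := (hPB (reflector PA x)).1
      rw [mem_closedBall, dist_eq_norm] at h2 h3
      have h4 : inner ℝ e (PA x - a) ≤ r := by
        have := real_inner_le_norm e (PA x - a)
        rw [he1, one_mul] at this
        linarith
      have h5 : -s ≤ inner ℝ e (PB (reflector PA x) - b) := by
        have := (abs_le.1 (abs_real_inner_le_norm e (PB (reflector PA x) - b))).1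
        rw [he1, one_mul] at this
        linarith
      have h6 : inner ℝ e (b - a) = d := by
        rw [show b - a = d • e by rw [hb]; abel, inner_smul_right, hee, mul_one]
      change inner ℝ e (x - T x) ≤ -g
      rw [h1, show PA x - PB (reflector PA x) =
        (PA x - a) - (PB (reflector PA x) - b) - (b - a) by abel, inner_sub_right,
        inner_sub_right, h6]
      linarith
    have hmem : -(g • e) ∈ closure (Set.range fun x => x - T x) := by
      apply subset_closure
      obtain ⟨t', κ, -, -, -, h3, h4⟩ := step hr hs hPA hPB he1 hb hdisj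
        (z := a + (2 * (r + s) + 1) • e) (t := 2 * (r + s) + 1) (y := 0) (by simp) (by simp) le_rfl
      refine ⟨a + (2 * (r + s) + 1) • e, ?_⟩
      change a + (2 * (r + s) + 1) • e - T (a + (2 * (r + s) + 1) • e) = -(g • e)
      rw [hT, h4, h3 rfl, hg]
      module
    have hnorm : ‖-(g • e)‖ = g := by rw [norm_neg, norm_smul, he1, Real.norm_of_nonneg hg0.le]; ring
    have hmin : IsMinimalDisplacement T (-(g • e)) := by
      refine ⟨hmem, fun w hw hne => ?_⟩
      rw [hnorm]
      by_contra hcon
      rw [not_lt] at hcon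
      apply hne
      have h1 := hrange w hw
      have h2 : ‖w + g • e‖ ^ 2 ≤ 0 := by
        rw [norm_add_sq_real, inner_smul_right, real_inner_comm, norm_smul, he1,
          Real.norm_of_nonneg hg0.le]
        nlinarith [norm_nonneg w]
      have h3 : ‖w + g • e‖ = 0 := by nlinarith [norm_nonneg (w + g • e)]
      exact eq_neg_of_add_eq_zero_left (norm_eq_zero.1 h3)
    refine ⟨⟨_, hmin⟩, ?_⟩
    intro v hv x
    have hv0 : v = -(g • e) := by
      refine minDisp_unique hv hmem ?_
      by_contra hcon
      rw [not_le] at hcon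
      rcases eq_or_ne v (-(g • e)) with h | h
      · rw [h] at hcon; exact lt_irrefl _ hcon
      · exact absurd (hmin.2 v hv.1 h) (not_lt.2 hcon.le)
    obtain ⟨l, hl⟩ := conv_of_disj hr hs hPA hPB he1 hb hdisj x
    refine ⟨l, hl.congr fun n => ?_⟩
    rw [hv0, smul_neg, ← sub_eq_add_neg]

end Pool.Agent.Results.MP_ef197a_an.TwoBalls
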